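import Pool.Agent.H45.Lib.S8.H306R2.RZ.Defs

set_option autoImplicit false

/-!
Definitions for the fourth wave of project RZ: Heath-Brown's large sieve for real characters.
-/

namespace Pool.Agent.H306R2.RZ

open Finset Filter Topology MeasureTheory

noncomputable section

/-- odd squarefree numbers up to `N` -/
def osf (N : ℕ) : Finset ℕ := (Icc 1 N).filter fun n => Odd n ∧ Squarefree n

/-- squarefree numbers up to `M` (both parities) -/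
def sqf (M : ℕ) : Finset ℕ := (Icc 1 M).filter fun m => Squarefree m

/-- `Σ_{m ≤ M squarefree} |Σ_{n ≤ N odd squarefree} a_n (m|n)|² ≤ B Σ |a_n|²` for all `a` -/
def LSB (M N : ℕ) (B : ℝ) : Prop := ∀ a : ℕ → ℂ,
  ∑ m ∈ sqf M, ‖∑ n ∈ osf N, a n * (js m n : ℂ)‖ ^ 2 ≤ B * ∑ n ∈ osf N, ‖a n‖ ^ 2

/-- the bound with exponent `β` : `𝔅(M,N) ≪ (MN)^ε (M + N^β)` -/
def LSP (β : ℝ) : Prop := ∀ ε : ℝ, 0 < ε → ∃ C : ℝ, 0 < C ∧ ∀ M N : ℕ, 1 ≤ M → 1 ≤ N →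
  LSB M N (C * ((M : ℝ) * N) ^ ε * (M + (N : ℝ) ^ β))

/-- `φ(u) = exp(-π u⁴)`, `Φ_r(Z) = Σ_{b ≥ 1, (b,r) = 1} φ(b/Z)`, `c0 = ∫_0^∞ φ` -/
def Phr (r : ℕ) (Z : ℝ) : ℝ :=
  ∑' b : ℕ, if b ≠ 0 ∧ b.Coprime r then Real.exp (-(Real.pi * ((b : ℝ) / Z) ^ 4)) else 0

def cph : ℝ := ∫ u in Set.Ioi (0 : ℝ), Real.exp (-(Real.pi * u ^ 4))

/-- error term -/
def Er (r : ℕ) (Z : ℝ) : ℝ := Phr r Z - cph * ((r.totient : ℝ) / r) * Z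

/-- `h_s(r) = ∏_{p | r} (1 - p^{-s})` -/
def hs (s : ℂ) (r : ℕ) : ℂ := ∏ p ∈ r.primeFactors, (1 - (p : ℂ) ^ (-s))

/-- the kernel of the square class of `k` on the dual side -/
def ThK (M : ℝ) (k : ℤ) (g q : ℕ) : ℝ :=
  ∑ e ∈ g.divisors, ((ArithmeticFunction.moebius e : ℤ) : ℝ) * (M / (e * Real.sqrt q)) *
    Phr q (Real.sqrt ((e.gcd k.natAbs : ℝ) ^ 2 * q / ((k.natAbs : ℝ) * M)))

end

end Pool.Agent.H306R2.RZ
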