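import Pool.Agent.H45.Lib.S8.H306R2.RZ.Defs4

set_option autoImplicit false

/-!
Definitions for the fifth wave of project RZ: moments of smooth sums and the non-squares.
-/

namespace Pool.Agent.H306R2.RZ

open Finset Filter Topology MeasureTheory

noncomputable section

/-- squarefree integers `k` with `|k| ≤ K`, `k ≠ 1` -/
def sqZ (K : ℕ) : Finset ℤ :=
  (Icc (-(K : ℤ)) K).filter fun k => Squarefree k.natAbs ∧ k ≠ 1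

/-- `Σ_{m odd} (k|m) m^{-1/2+it} w(log(v m)/L)` -/
def NS (k : ℤ) (t : ℝ) (v : ℕ) (L : ℝ) (w : ℝ → ℝ) : ℂ :=
  ∑' m : ℕ, if Odd m then (js k m : ℂ) * (m : ℂ) ^ (-(1 / 2) + (t : ℂ) * Complex.I) *
    (w ((Real.log m + Real.log v) / L) : ℂ) else 0

/-- the trilinear bound; `ς = 0` : Heath-Brown, `ς = 1/2` : elementary -/
def TRIP (ς : ℝ) : Prop := ∀ ε : ℝ, 0 < ε → ∃ (C : ℝ) (A : ℕ), 0 < C ∧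
  ∀ (K Y v0 v1 : ℕ) (t L : ℝ) (w1 w2 : ℝ → ℝ) (B1 B2 : ℝ) (α : ℕ → ℂ), 1 ≤ K → 1 ≤ Y → 1 ≤ v0 →
    1 ≤ v1 → 1 ≤ L → Wt 1 w1 → Wt 1 w2 → Bd A w1 B1 → Bd A w2 B2 →
    ∑ k ∈ sqZ K, ‖NS k t v0 L w1‖ * ‖NS k t v1 L w2‖ * ‖∑ l ∈ osf Y, α l * (js k l : ℂ)‖ ≤
      C * (1 + |t|) ^ A * B1 * B2 * ((K : ℝ) * Y) ^ ε * Real.exp (ε * L) * (K : ℝ) ^ (1 / 2 : ℝ) *
        ((K : ℝ) ^ (1 / 2 : ℝ) * (Y : ℝ) ^ ς + (Y : ℝ) ^ (1 / 2 : ℝ)) *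
        Real.sqrt (∑ l ∈ osf Y, ‖α l‖ ^ 2)

/-- the sum over the four variables for fixed `k` and `t` -/
def RR (q : ℕ) (L : ℝ) (w1 w2 Q1 Q2 : ℝ → ℝ) (k : ℤ) (t : ℝ) : ℂ :=
  ∑' a : Fin 4 → ℕ, if (∀ i, a i ≠ 0 ∧ Nat.Coprime (a i) q) then
    ((ArithmeticFunction.moebius (a 2) : ℤ) : ℂ) * ((ArithmeticFunction.moebius (a 3) : ℤ) : ℂ) *
      (Gk k (∏ i, a i) : ℂ) * ((∏ i, a i : ℕ) : ℂ) ^ (-1 + (t : ℂ) * Complex.I) *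
      (w4 L w1 w2 Q1 Q2 a : ℂ) else 0

/-- the part prime to `k` -/
def VV (q : ℕ) (L : ℝ) (w1 w2 Q1 Q2 : ℝ → ℝ) (k1 : ℤ) (k2 : ℕ) (b : Fin 4 → ℕ) (t : ℝ) : ℂ :=
  ∑' c : Fin 4 → ℕ, if Squarefree (∏ i, c i) ∧ Nat.Coprime (∏ i, c i) (k2 * q) then
    ((ArithmeticFunction.moebius (c 2) : ℤ) : ℂ) * ((ArithmeticFunction.moebius (c 3) : ℤ) : ℂ) *
      (js k1 (∏ i, c i) : ℂ) * ((∏ i, c i : ℕ) : ℂ) ^ (-(1 / 2) + (t : ℂ) * Complex.I) *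
      (w4 L w1 w2 Q1 Q2 (fun i => b i * c i) : ℂ) else 0

/-- coefficients of the mollifier variable `l = c2 c3` -/
def alc (q : ℕ) (L : ℝ) (Q1 Q2 : ℝ → ℝ) (k2 b2 b3 : ℕ) (t : ℝ) (l : ℕ) : ℂ :=
  if Nat.Coprime l (k2 * q) then
    (l : ℂ) ^ (-(1 / 2) + (t : ℂ) * Complex.I) * ∑ x ∈ l.divisorsAntidiagonal,
      ((ArithmeticFunction.moebius x.1 : ℤ) : ℂ) * ((ArithmeticFunction.moebius x.2 : ℤ) : ℂ) *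
        (Q1 (Real.log ((b2 * x.1 : ℕ) : ℝ) / L) * Q2 (Real.log ((b3 * x.2 : ℕ) : ℝ) / L) : ℝ)
  else 0

end

end Pool.Agent.H306R2.RZ
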